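import Pool.Statements.S13150
import Pool.Agent.T2h56.Menger.Homeo

set_option autoImplicit false
open Pool Pool.MP_4f0e62_gt

namespace Pool.Agent.S13150

/-!
Complete Erdős space `E` contains no closed copy of itself inside a ball: a nonempty bounded closed
subset of `E` has a point with small clopen neighbourhoods in it, while every nonempty clopen subset
of `E` is unbounded (Erdős). On the other hand, for the noncompact manifold `ℕ × μ` every
neighbourhood of the identity of its homeomorphism group contains a closed copy of the homeomorphism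
group of `μ` (the homeomorphisms moving only one of the copies of `μ`). So not both groups can be
homeomorphic to `E`.
-/

/-- the `n`-dimensional Menger compactum (a set of points of the cube of dimension `2 n + 1`) -/
abbrev Mu (n : ℕ) : Set (Fin (2 * n + 1) → ℝ) := {y : Fin (2 * n + 1) → ℝ |
            ∀ k : ℕ, ∃ a : Fin (2 * n + 1) → ℕ,
              (∀ i, a i < 3 ^ k ∧ (a i : ℝ) / 3 ^ k ≤ y i ∧ y i ≤ ((a i : ℝ) + 1) / 3 ^ k) ∧
              ∀ j < k, (Finset.univ.filter (fun i => a i / 3 ^ j % 3 = 1)).card ≤ n}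

lemma mu_closed (n : ℕ) : IsClosed (Mu n) := by
  have h : Mu n = ⋂ k : ℕ, ⋃ a ∈ {a : Fin (2 * n + 1) → ℕ | (∀ i, a i < 3 ^ k) ∧
      ∀ j < k, (Finset.univ.filter (fun i => a i / 3 ^ j % 3 = 1)).card ≤ n},
      {y : Fin (2 * n + 1) → ℝ | ∀ i, (a i : ℝ) / 3 ^ k ≤ y i ∧ y i ≤ ((a i : ℝ) + 1) / 3 ^ k} := by
    ext y
    simp only [Set.mem_ofPred_eq, Set.mem_iInter, Set.mem_iUnion, exists_prop]
    refine forall_congr' fun k => exists_congr fun a => ?_
    constructor
    · rintro ⟨h1, h2⟩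
      exact ⟨⟨fun i => (h1 i).1, h2⟩, fun i => (h1 i).2⟩
    · rintro ⟨⟨h1, h2⟩, h3⟩
      exact ⟨fun i => ⟨h1 i, h3 i⟩, h2⟩
  rw [h]
  refine isClosed_iInter fun k => ?_
  refine Set.Finite.isClosed_biUnion ?_ fun a _ => ?_
  · refine Set.Finite.subset (Set.finite_Iic fun _ : Fin (2 * n + 1) => 3 ^ k) ?_
    intro a ha i
    exact (ha.1 i).le
  · have h2 : {y : Fin (2 * n + 1) → ℝ | ∀ i, (a i : ℝ) / 3 ^ k ≤ y i ∧
        y i ≤ ((a i : ℝ) + 1) / 3 ^ k} = ⋂ i, {y : Fin (2 * n + 1) → ℝ | (a i : ℝ) / 3 ^ k ≤ y i ∧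
        y i ≤ ((a i : ℝ) + 1) / 3 ^ k} := by
      ext y
      simp
    rw [h2]
    refine isClosed_iInter fun i => ?_
    exact (isClosed_le continuous_const (continuous_apply i)).inter
      (isClosed_le (continuous_apply i) continuous_const)

lemma mu_nonempty (n : ℕ) : (Mu n).Nonempty := by
  refine ⟨0, fun k => ⟨0, fun i => ⟨?_, ?_, ?_⟩, fun j _ => ?_⟩⟩
  · simp
  · simp
  · simp
  · simp

/-- one of the copies of `μ` in `ℕ × μ` -/
def copy (n m : ℕ) : {p : ℕ × Mu n | p.1 = m} ≃ₜ (Set.univ : Set (Mu n)) where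
  toFun p := ⟨p.1.2, trivial⟩
  invFun y := ⟨(m, y.1), rfl⟩
  left_inv p := by
    rcases p with ⟨⟨a, b⟩, h⟩
    simp only [Set.mem_ofPred_eq] at h
    subst h
    rfl
  right_inv y := rfl
  continuous_toFun := by fun_prop
  continuous_invFun := by fun_prop

/-- The negation of the preceding statement: For every n ≥ 1 and every nonempty separable metrizable space locally homeomorphic to open subsets of the n-dimensional Menger compactum, its homeomorphism group with the compact-open topology is homeomorphic to complete Erdős space. -/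
theorem result :
    ¬ (∀ (n : ℕ), 1 ≤ n →
    ∀ (M : Type) [TopologicalSpace M] [TopologicalSpace.MetrizableSpace M]
      [TopologicalSpace.SeparableSpace M] [Nonempty M],
      (∀ x : M, ∃ V : Set M, IsOpen V ∧ x ∈ V ∧
        ∃ U : Set {y : Fin (2 * n + 1) → ℝ |
            ∀ k : ℕ, ∃ a : Fin (2 * n + 1) → ℕ,
              (∀ i, a i < 3 ^ k ∧ (a i : ℝ) / 3 ^ k ≤ y i ∧ y i ≤ ((a i : ℝ) + 1) / 3 ^ k) ∧
              ∀ j < k, (Finset.univ.filter (fun i => a i / 3 ^ j % 3 = 1)).card ≤ n},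
          IsOpen U ∧ Nonempty (V ≃ₜ U)) →
      Nonempty (@Homeomorph (M ≃ₜ M)
        {x : lp (fun _ : ℕ => ℝ) 2 | ∀ i : ℕ, (x : ℕ → ℝ) i = 0 ∨
            ∃ k : ℕ, 0 < k ∧ (x : ℕ → ℝ) i = 1 / (k : ℝ)}
        (TopologicalSpace.induced (fun g : M ≃ₜ M => ContinuousMap.mk (⇑g) g.continuous)
          inferInstance)
        inferInstance)) := by
  intro H
  have : Nonempty (Mu 1) := (mu_nonempty 1).to_subtype
  have : LocallyCompactSpace (Mu 1) := (mu_closed 1).isClosedEmbedding_subtypeVal.locallyCompactSpace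
  obtain ⟨Φ⟩ := H 1 le_rfl (Mu 1) (fun x => ⟨Set.univ, isOpen_univ, trivial, Set.univ, isOpen_univ,
    ⟨Homeomorph.refl _⟩⟩)
  obtain ⟨Ψ⟩ := H 1 le_rfl (ℕ × Mu 1) (fun x => ⟨{p | p.1 = x.1},
    (isOpen_discrete ({x.1} : Set ℕ)).preimage continuous_fst, rfl, Set.univ, isOpen_univ,
    ⟨copy 1 x.1⟩⟩)
  exact Pool.Agent.T2h56.Menger.key (K := Mu 1) Φ Ψ

end Pool.Agent.S13150
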